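import Pool.Agent.H29E.Final

/-!
The exact set of `n` for which the Ramsey number of short cycles up to length `n` versus the
complete graph on `m` vertices equals `2 m + 1`, for every `m ≥ 6`.
-/

namespace Pool.Agent.Results.MP_ebd9d9_co.ValueTwoMPlusOne

open Pool.H82.SC

theorem result : ∀ m n : ℕ, 6 ≤ m → 3 ≤ n →
    (ramsey n m = 2 * m + 1 ↔ 2 * ((m + 1) / 3) + 1 ≤ n ∧ n ≤ 2 * (m / 2)) :=
  fun _ _ hm _ => Pool.H29E.ramsey_one hm

end Pool.Agent.Results.MP_ebd9d9_co.ValueTwoMPlusOne
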