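import Pool.Agent.H29E.Final

/-!
The exact set of `n` for which the Ramsey number of short cycles up to length `n` versus the
complete graph on `m` vertices equals `2 m + 2`, for every `m ≥ 215`.
-/

namespace Pool.Agent.Results.MP_ebd9d9_co.ValueTwoMPlusTwo

open Pool.H82.SC

theorem result : ∀ m n : ℕ, 215 ≤ m → 3 ≤ n →
    (ramsey n m = 2 * m + 2 ↔ 2 * ((3 * m + 4) / 11) + 1 ≤ n ∧ n ≤ 2 * ((m + 1) / 3)) :=
  fun _ _ hm _ => Pool.H29E.ramsey_two hm

end Pool.Agent.Results.MP_ebd9d9_co.ValueTwoMPlusTwo
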